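import Pool.Agent.helper5.LDH.Spec

/-!
# LDH, row EM: first order Euler-Maclaurin at a zero of the zeta function
-/

set_option autoImplicit false

open Complex MeasureTheory

namespace Pool.Agent.LDH

open Metric

/-- `c_n(s) = (1 - s) n^(-s) - (n+1)^(1-s) + n^(1-s)` with `n` replaced by `n+1`. -/
noncomputable def EM_c (n : ℕ) (s : ℂ) : ℂ :=
  (1 - s) * ((n : ℂ) + 1) ^ (-s) - ((n : ℂ) + 2) ^ (1 - s) + ((n : ℂ) + 1) ^ (1 - s)

theorem EM_pow_sub (n : ℕ) {s : ℂ} (hs : 0 < s.re) {x : ℝ} (hx : (n : ℝ) + 1 ≤ x)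
    (hx' : x ≤ (n : ℝ) + 2) :
    ‖(x : ℂ) ^ (-s) - (((n : ℝ) + 1 : ℝ) : ℂ) ^ (-s)‖ ≤
      ‖s‖ * ((n : ℝ) + 1) ^ (-s.re - 1) := by
  have hn : (0 : ℝ) < (n : ℝ) + 1 := by positivity
  have key := (convex_Icc ((n : ℝ) + 1) ((n : ℝ) + 2)).norm_image_sub_le_of_norm_hasDerivWithin_le
    (f := fun y : ℝ => (y : ℂ) ^ (-s)) (f' := fun y : ℝ => (-s) * (y : ℂ) ^ (-s - 1))
    (C := ‖s‖ * ((n : ℝ) + 1) ^ (-s.re - 1)) (x := (n : ℝ) + 1) (y := x)
    (by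
      intro y hy
      have hy0 : y ≠ 0 := (lt_of_lt_of_le hn hy.1).ne'
      exact (hasDerivAt_ofReal_cpow_const hy0 (by
        intro h
        have := congrArg Complex.re h
        simp at this
        linarith) |>.congr_deriv (by ring)).hasDerivWithinAt)
    (by
      intro y hy
      have hy0 : 0 < y := lt_of_lt_of_le hn hy.1
      rw [norm_mul, norm_neg, Complex.norm_cpow_eq_rpow_re_of_pos hy0]
      refine mul_le_mul_of_nonneg_left ?_ (norm_nonneg _)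
      simp only [Complex.sub_re, Complex.neg_re, Complex.one_re]
      exact Real.rpow_le_rpow_of_nonpos hn hy.1 (by linarith))
    ⟨le_rfl, by linarith⟩ ⟨hx, hx'⟩
  refine key.trans ?_
  have h1 : ‖x - ((n : ℝ) + 1)‖ ≤ 1 := by
    rw [Real.norm_eq_abs, abs_le]; constructor <;> linarith
  have h0 : 0 ≤ ‖s‖ * ((n : ℝ) + 1) ^ (-s.re - 1) := by positivity
  calc _ ≤ ‖s‖ * ((n : ℝ) + 1) ^ (-s.re - 1) * 1 := mul_le_mul_of_nonneg_left h1 h0
    _ = _ := mul_one _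

theorem EM_c_bound (n : ℕ) {s : ℂ} (hs : 0 < s.re) :
    ‖EM_c n s‖ ≤ ‖1 - s‖ * ‖s‖ * ((n : ℝ) + 1) ^ (-s.re - 1) := by
  have hn : (0 : ℝ) < (n : ℝ) + 1 := by positivity
  by_cases h1 : s = 1
  · subst h1
    simp [EM_c]
  have hs1 : (1 : ℂ) - s ≠ 0 := sub_ne_zero.mpr (Ne.symm h1)
  have key := (convex_Icc ((n : ℝ) + 1) ((n : ℝ) + 2)).norm_image_sub_le_of_norm_hasDerivWithin_le
    (f := fun y : ℝ => (1 - s) * (((n : ℝ) + 1 : ℝ) : ℂ) ^ (-s) * (y : ℂ) - (y : ℂ) ^ (1 - s))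
    (f' := fun y : ℝ => (1 - s) * (((n : ℝ) + 1 : ℝ) : ℂ) ^ (-s) - (1 - s) * (y : ℂ) ^ (-s))
    (C := ‖1 - s‖ * ‖s‖ * ((n : ℝ) + 1) ^ (-s.re - 1)) (x := (n : ℝ) + 1) (y := (n : ℝ) + 2)
    (by
      intro y hy
      have hy0 : y ≠ 0 := (lt_of_lt_of_le hn hy.1).ne'
      have e1 : HasDerivAt (fun y : ℝ => (1 - s) * (((n : ℝ) + 1 : ℝ) : ℂ) ^ (-s) * (y : ℂ))
          ((1 - s) * (((n : ℝ) + 1 : ℝ) : ℂ) ^ (-s)) y := by
        simpa using (Complex.ofRealCLM.hasDerivAt (x := y)).const_mul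
          ((1 - s) * (((n : ℝ) + 1 : ℝ) : ℂ) ^ (-s))
      have e2 := hasDerivAt_ofReal_cpow_const hy0 hs1
      exact ((e1.sub e2).congr_deriv (by
        rw [show (1 : ℂ) - s - 1 = -s by ring])).hasDerivWithinAt)
    (by
      intro y hy
      rw [← mul_sub, norm_mul, mul_assoc]
      refine mul_le_mul_of_nonneg_left ?_ (norm_nonneg _)
      rw [norm_sub_rev]
      exact EM_pow_sub n hs hy.1 hy.2)
    ⟨le_rfl, by linarith⟩ ⟨by linarith, le_rfl⟩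
  have e : EM_c n s = ((1 - s) * (((n : ℝ) + 1 : ℝ) : ℂ) ^ (-s) * (((n : ℝ) + 2 : ℝ) : ℂ) -
      (((n : ℝ) + 2 : ℝ) : ℂ) ^ (1 - s)) - ((1 - s) * (((n : ℝ) + 1 : ℝ) : ℂ) ^ (-s) *
      (((n : ℝ) + 1 : ℝ) : ℂ) - (((n : ℝ) + 1 : ℝ) : ℂ) ^ (1 - s)) := by
    unfold EM_c
    push_cast
    ring
  rw [e]
  refine key.trans (le_of_eq ?_)
  have : ‖((n : ℝ) + 2) - ((n : ℝ) + 1)‖ = 1 := by
    rw [show ((n : ℝ) + 2) - ((n : ℝ) + 1) = 1 by ring]; simp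
  rw [this, mul_one]

theorem EM_summable {a : ℝ} (ha : 0 < a) :
    Summable (fun n : ℕ => ((n : ℝ) + 1) ^ (-a - 1)) := by
  have h := (summable_nat_add_iff (f := fun n : ℕ => (n : ℝ) ^ (-a - 1)) 1).mpr
    (Real.summable_nat_rpow.mpr (by linarith))
  refine h.congr fun n => ?_
  push_cast
  rfl

theorem EM_diff (n : ℕ) : Differentiable ℂ (EM_c n) := by
  have h1 : ((n : ℂ) + 1) ≠ 0 := by exact_mod_cast Nat.succ_ne_zero n
  have h2 : ((n : ℂ) + 2) ≠ 0 := by exact_mod_cast Nat.succ_ne_zero (n + 1)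
  unfold EM_c
  intro s
  refine ((((differentiableAt_const _).sub differentiableAt_id).mul ?_).sub ?_).add ?_
  · exact (differentiableAt_id.neg).const_cpow (Or.inl h1)
  · exact ((differentiableAt_const _).sub differentiableAt_id).const_cpow (Or.inl h2)
  · exact ((differentiableAt_const _).sub differentiableAt_id).const_cpow (Or.inl h1)

theorem EM_partial (N : ℕ) (s : ℂ) :
    ∑ n ∈ Finset.range N, EM_c n s = (1 - s) * ∑ n ∈ Finset.range N, ((n : ℂ) + 1) ^ (-s) -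
      ((N : ℂ) + 1) ^ (1 - s) + 1 := by
  induction N with
  | zero => simp
  | succ N ih =>
    rw [Finset.sum_range_succ, Finset.sum_range_succ, ih, EM_c]
    push_cast
    rw [show (N : ℂ) + 1 + 1 = (N : ℂ) + 2 by ring]
    ring

theorem EM_zeta {s : ℂ} (hs : 1 < s.re) :
    HasSum (fun n : ℕ => ((n : ℂ) + 1) ^ (-s)) (riemannZeta s) := by
  rw [zeta_eq_tsum_one_div_nat_add_one_cpow hs]
  have h : Summable (fun n : ℕ => 1 / ((n : ℂ) + 1) ^ s) := by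
    have := (summable_nat_add_iff (f := fun n : ℕ => 1 / (n : ℂ) ^ s) 1).mpr
      (Complex.summable_one_div_nat_cpow.mpr hs)
    refine this.congr fun n => ?_
    push_cast
    rfl
  refine h.hasSum.congr_fun ?_
  intro n
  rw [Complex.cpow_neg, one_div]

theorem EM_tsum {s : ℂ} (hs : 1 < s.re) :
    ∑' n : ℕ, EM_c n s = (1 - s) * riemannZeta s + 1 := by
  have hsum : Summable (fun n : ℕ => EM_c n s) := by
    refine Summable.of_norm_bounded ((EM_summable (a := s.re) (by linarith)).mul_left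
      (‖1 - s‖ * ‖s‖)) fun n => EM_c_bound n (by linarith)
  have h1 := hsum.hasSum.tendsto_sum_nat
  have h2 : Filter.Tendsto (fun N : ℕ => (1 - s) * ∑ n ∈ Finset.range N, ((n : ℂ) + 1) ^ (-s) -
      ((N : ℂ) + 1) ^ (1 - s) + 1) Filter.atTop (nhds ((1 - s) * riemannZeta s - 0 + 1)) := by
    refine ((((EM_zeta hs).tendsto_sum_nat).const_mul (1 - s)).sub ?_).add_const 1
    rw [tendsto_zero_iff_norm_tendsto_zero]
    have e : (fun N : ℕ => ‖((N : ℂ) + 1) ^ (1 - s)‖) =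
        fun N : ℕ => ((N : ℝ) + 1) ^ (-(s.re - 1)) := by
      funext N
      have hN : (0 : ℝ) < (N : ℝ) + 1 := by positivity
      rw [show ((N : ℂ) + 1) = (((N : ℝ) + 1 : ℝ) : ℂ) by push_cast; rfl,
        Complex.norm_cpow_eq_rpow_re_of_pos hN]
      congr 1
      simp
    rw [e]
    refine (tendsto_rpow_neg_atTop (y := s.re - 1) (by linarith)).comp ?_
    exact Filter.tendsto_atTop_add_const_right _ _ tendsto_natCast_atTop_atTop
  simp only [EM_partial] at h1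
  rw [tendsto_nhds_unique h1 h2, sub_zero]

theorem EM_cont {s : ℂ} (hs : 1 / 8 ≤ s.re) :
    ∑' n : ℕ, EM_c n s = 1 - riemannZeta₁ s := by
  set R : ℝ := ‖s‖ + 3 with hR
  set U : Set ℂ := {z : ℂ | 1 / 16 < z.re} ∩ ball 0 R with hU
  have hUo : IsOpen U := (isOpen_lt continuous_const Complex.continuous_re).inter isOpen_ball
  have hUc : Convex ℝ U := (convex_halfSpace_re_gt (1 / 16)).inter (convex_ball 0 R)
  have hsU : s ∈ U := ⟨by simp only [Set.mem_ofPred_eq]; linarith, by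
    rw [mem_ball_zero_iff, hR]; linarith⟩
  have h2U : (2 : ℂ) ∈ U := ⟨by simp only [Set.mem_ofPred_eq]; norm_num, by
    rw [mem_ball_zero_iff, hR]
    have : ‖(2 : ℂ)‖ = 2 := by simp
    rw [this]
    have := norm_nonneg s
    linarith⟩
  have hF : DifferentiableOn ℂ (fun z => ∑' n : ℕ, EM_c n z) U := by
    refine Complex.differentiableOn_tsum_of_summable_norm
      (u := fun n : ℕ => ((1 + R) * R) * ((n : ℝ) + 1) ^ (-(1 / 16 : ℝ) - 1))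
      ((EM_summable (by norm_num)).mul_left _)
      (fun n => (EM_diff n).differentiableOn) hUo ?_
    intro n z hz
    have hz1 : 1 / 16 < z.re := hz.1
    have hz2 : ‖z‖ < R := by simpa using hz.2
    refine (EM_c_bound n (by linarith)).trans ?_
    have hR0 : 0 ≤ R := by positivity
    refine mul_le_mul (mul_le_mul ?_ hz2.le (norm_nonneg _) (by positivity)) ?_ (by positivity)
      (by positivity)
    · calc ‖1 - z‖ ≤ ‖(1 : ℂ)‖ + ‖z‖ := norm_sub_le _ _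
        _ ≤ 1 + R := by rw [norm_one]; linarith
    · exact Real.rpow_le_rpow_of_exponent_le (by
        have : (0 : ℝ) ≤ n := by positivity
        linarith) (by linarith)
  have hG : DifferentiableOn ℂ (fun z => 1 - riemannZeta₁ z) U :=
    ((differentiable_const 1).sub differentiable_riemannZeta₁).differentiableOn
  have hEq : Set.EqOn (fun z => ∑' n : ℕ, EM_c n z) (fun z => 1 - riemannZeta₁ z) U := by
    refine (hF.analyticOnNhd hUo).eqOn_of_preconnected_of_eventuallyEq (hG.analyticOnNhd hUo)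
      hUc.isPreconnected h2U ?_
    have : {z : ℂ | 1 < z.re} ∈ nhds (2 : ℂ) :=
      (isOpen_lt continuous_const Complex.continuous_re).mem_nhds (by
        simp only [Set.mem_ofPred_eq]; norm_num)
    filter_upwards [this] with z hz
    have hz1 : z ≠ 1 := by
      intro h
      rw [h] at hz
      simp at hz
    rw [EM_tsum hz, riemannZeta_eq_inv_sub_mul hz1]
    have : z - 1 ≠ 0 := sub_ne_zero.mpr hz1
    field_simp
    ring
  exact hEq hsU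

theorem EM_step (σ : ℝ) (hσ : 0 < σ) (n : ℕ) (hn : 1 ≤ n) :
    σ * ((n : ℝ) + 1) ^ (-σ - 1) ≤ (n : ℝ) ^ (-σ) - ((n : ℝ) + 1) ^ (-σ) := by
  have hn0 : (0 : ℝ) < n := by exact_mod_cast hn
  have hn1 : (0 : ℝ) < (n : ℝ) + 1 := by positivity
  have h1 : Real.log ((n : ℝ) / (n + 1)) ≤ (n : ℝ) / (n + 1) - 1 := Real.log_le_sub_one_of_pos (by positivity)
  rw [Real.log_div hn0.ne' hn1.ne'] at h1
  have h2 : (n : ℝ) / (n + 1) - 1 = -(1 / ((n : ℝ) + 1)) := by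
    field_simp
    ring
  rw [h2] at h1
  have h3 : (n : ℝ) ^ (-σ) = ((n : ℝ) + 1) ^ (-σ) * Real.exp (σ * (Real.log ((n : ℝ) + 1) - Real.log n)) := by
    rw [Real.rpow_def_of_pos hn0, Real.rpow_def_of_pos hn1, ← Real.exp_add]
    congr 1
    ring
  have h4 := Real.add_one_le_exp (σ * (Real.log ((n : ℝ) + 1) - Real.log n))
  have h5 : 0 < ((n : ℝ) + 1) ^ (-σ) := Real.rpow_pos_of_pos hn1 _
  have h6 : ((n : ℝ) + 1) ^ (-σ - 1) = ((n : ℝ) + 1) ^ (-σ) * (1 / ((n : ℝ) + 1)) := by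
    rw [Real.rpow_sub hn1, Real.rpow_one]
    ring
  have h7 : σ * (1 / ((n : ℝ) + 1)) ≤ σ * (Real.log ((n : ℝ) + 1) - Real.log n) :=
    mul_le_mul_of_nonneg_left (by linarith) hσ.le
  have h8 : ((n : ℝ) + 1) ^ (-σ) * (σ * (1 / ((n : ℝ) + 1))) ≤
      ((n : ℝ) + 1) ^ (-σ) * (Real.exp (σ * (Real.log ((n : ℝ) + 1) - Real.log n)) - 1) :=
    mul_le_mul_of_nonneg_left (by linarith) h5.le
  rw [h3, h6]
  linarith

theorem EM_tail (σ : ℝ) (hσ : 0 < σ) (N : ℕ) (hN : 1 ≤ N) (M : ℕ) :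
    ∑ i ∈ Finset.range M, (((i + N : ℕ) : ℝ) + 1) ^ (-σ - 1) ≤ (1 / σ) * ((N : ℝ) ^ (-σ) - ((M + N : ℕ) : ℝ) ^ (-σ)) := by
  induction M with
  | zero => simp
  | succ M ih =>
    rw [Finset.sum_range_succ]
    have h := EM_step σ hσ (M + N) (by omega)
    have h1 : (((M + N : ℕ) : ℝ) + 1) ^ (-σ - 1) ≤ (1 / σ) * (((M + N : ℕ) : ℝ) ^ (-σ) - (((M + N : ℕ) : ℝ) + 1) ^ (-σ)) := by
      rw [one_div, ← div_eq_inv_mul, le_div_iff₀ hσ, mul_comm]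
      exact h
    have e : ((M + 1 + N : ℕ) : ℝ) = ((M + N : ℕ) : ℝ) + 1 := by
      push_cast
      ring
    rw [e]
    calc _ ≤ (1 / σ) * ((N : ℝ) ^ (-σ) - ((M + N : ℕ) : ℝ) ^ (-σ)) +
          (1 / σ) * (((M + N : ℕ) : ℝ) ^ (-σ) - (((M + N : ℕ) : ℝ) + 1) ^ (-σ)) := add_le_add ih h1
      _ = _ := by ring

theorem EM_Icc (N : ℕ) (s : ℂ) : ∑ n ∈ Finset.Icc 1 N, (n : ℂ) ^ (-s) = ∑ n ∈ Finset.range N, ((n : ℂ) + 1) ^ (-s) := by
  induction N with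
  | zero => simp
  | succ N ih =>
    rw [Finset.sum_Icc_succ_top (by omega), ih, Finset.sum_range_succ]
    push_cast
    rfl

theorem EM : EM_stmt := by
  refine ⟨4, by norm_num, fun ρ N hz h12 hr1 him hN => ?_⟩
  have hre : 0 < ρ.re := by linarith
  have hN0 : (0 : ℝ) < N := by exact_mod_cast hN
  have hN1 : (1 : ℝ) ≤ N := by exact_mod_cast hN
  have hρ1 : ρ ≠ 1 := by
    intro h
    rw [h] at him
    simp at him
    linarith
  have him1 : ρ.im ≤ ‖(1 : ℂ) - ρ‖ := by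
    have h := Complex.abs_im_le_norm ((1 : ℂ) - ρ)
    simp only [Complex.sub_im, Complex.one_im, zero_sub, abs_neg] at h
    exact (le_abs_self _).trans h
  have hpos : 0 < ‖(1 : ℂ) - ρ‖ := by linarith
  have hnρ : ‖ρ‖ ≤ 2 * ρ.im := by
    have h := Complex.norm_le_abs_re_add_abs_im ρ
    rw [abs_of_pos hre, abs_of_pos (by linarith : (0 : ℝ) < ρ.im)] at h
    linarith
  -- the series
  have hz1 : riemannZeta₁ ρ = 0 := by
    rw [riemannZeta_eq_inv_sub_mul hρ1] at hz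
    rcases mul_eq_zero.1 hz with h | h
    · exact absurd (inv_eq_zero.1 h) (sub_ne_zero.2 hρ1)
    · exact h
  have hts : ∑' n : ℕ, EM_c n ρ = 1 := by
    rw [EM_cont (by linarith : (1 : ℝ) / 8 ≤ ρ.re), hz1, sub_zero]
  have hsum : Summable (fun n : ℕ => EM_c n ρ) :=
    Summable.of_norm_bounded ((EM_summable (a := ρ.re) hre).mul_left (‖1 - ρ‖ * ‖ρ‖)) fun n => EM_c_bound n hre
  have hsplit := hsum.sum_add_tsum_nat_add N
  rw [hts, EM_partial] at hsplit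
  -- the tail
  have htail : ‖∑' i : ℕ, EM_c (i + N) ρ‖ ≤ ‖1 - ρ‖ * ‖ρ‖ * (2 * (N : ℝ) ^ (-ρ.re)) := by
    have hs2 : Summable (fun i : ℕ => (((i + N : ℕ) : ℝ) + 1) ^ (-ρ.re - 1)) :=
      (summable_nat_add_iff (f := fun n : ℕ => ((n : ℝ) + 1) ^ (-ρ.re - 1)) N).2 (EM_summable hre)
    have hb : ∑' i : ℕ, (((i + N : ℕ) : ℝ) + 1) ^ (-ρ.re - 1) ≤ 2 * (N : ℝ) ^ (-ρ.re) := by
      refine Real.tsum_le_of_sum_range_le (fun i => by positivity) fun M => ?_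
      refine (EM_tail ρ.re hre N hN M).trans ?_
      have h1 : 0 ≤ ((M + N : ℕ) : ℝ) ^ (-ρ.re) := by positivity
      have h2 : 0 ≤ (N : ℝ) ^ (-ρ.re) := by positivity
      have h3 : 1 / ρ.re ≤ 2 := by
        rw [div_le_iff₀ hre]
        linarith
      have h4 : 0 ≤ 1 / ρ.re := by positivity
      calc (1 / ρ.re) * ((N : ℝ) ^ (-ρ.re) - ((M + N : ℕ) : ℝ) ^ (-ρ.re)) ≤ (1 / ρ.re) * (N : ℝ) ^ (-ρ.re) :=
            mul_le_mul_of_nonneg_left (by linarith) h4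
        _ ≤ 2 * (N : ℝ) ^ (-ρ.re) := mul_le_mul_of_nonneg_right h3 h2
    refine (tsum_of_norm_bounded (hs2.mul_left (‖1 - ρ‖ * ‖ρ‖)).hasSum fun i => EM_c_bound (i + N) hre).trans ?_
    rw [tsum_mul_left]
    exact mul_le_mul_of_nonneg_left hb (by positivity)
  have hS := EM_Icc N ρ
  obtain ⟨S, hSdef⟩ : ∃ S : ℂ, S = ∑ n ∈ Finset.range N, ((n : ℂ) + 1) ^ (-ρ) := ⟨_, rfl⟩
  obtain ⟨R, hRdef⟩ : ∃ R : ℂ, R = ∑' i : ℕ, EM_c (i + N) ρ := ⟨_, rfl⟩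
  rw [← hSdef, ← hRdef] at hsplit
  rw [← hRdef] at htail
  rw [hS, ← hSdef]
  have e1 : (1 - ρ) * S = ((N : ℂ) + 1) ^ (1 - ρ) - R := by linear_combination hsplit
  have e2 : ‖((N : ℂ) + 1) ^ (1 - ρ)‖ = ((N : ℝ) + 1) ^ (1 - ρ.re) := by
    rw [show ((N : ℂ) + 1) = (((N : ℝ) + 1 : ℝ) : ℂ) by push_cast; rfl,
      Complex.norm_cpow_eq_rpow_re_of_pos (by positivity)]
    simp
  have e3 : ((N : ℝ) + 1) ^ (1 - ρ.re) ≤ 2 * (N : ℝ) ^ (1 - ρ.re) := by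
    have h1 : ((N : ℝ) + 1) ^ (1 - ρ.re) ≤ (2 * (N : ℝ)) ^ (1 - ρ.re) :=
      Real.rpow_le_rpow (by positivity) (by linarith) (by linarith)
    have h2 : (2 * (N : ℝ)) ^ (1 - ρ.re) = 2 ^ (1 - ρ.re) * (N : ℝ) ^ (1 - ρ.re) :=
      Real.mul_rpow (by norm_num) hN0.le
    have h3 : (2 : ℝ) ^ (1 - ρ.re) ≤ 2 := by
      have h4 : (2 : ℝ) ^ (1 - ρ.re) ≤ 2 ^ (1 : ℝ) := Real.rpow_le_rpow_of_exponent_le (by norm_num) (by linarith)
      rwa [Real.rpow_one] at h4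
    rw [h2] at h1
    exact h1.trans (mul_le_mul_of_nonneg_right h3 (by positivity))
  have e4 : ‖1 - ρ‖ * ‖S‖ ≤ 2 * (N : ℝ) ^ (1 - ρ.re) + ‖1 - ρ‖ * ‖ρ‖ * (2 * (N : ℝ) ^ (-ρ.re)) := by
    rw [← norm_mul, e1]
    refine (norm_sub_le _ _).trans (add_le_add ?_ htail)
    rw [e2]
    exact e3
  have hA : 0 ≤ (N : ℝ) ^ (1 - ρ.re) := by positivity
  have hB : 0 ≤ (N : ℝ) ^ (-ρ.re) := by positivity
  have e5 : ‖S‖ ≤ 2 * (N : ℝ) ^ (1 - ρ.re) / ‖1 - ρ‖ + ‖ρ‖ * (2 * (N : ℝ) ^ (-ρ.re)) := by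
    have h1 : ‖S‖ ≤ (2 * (N : ℝ) ^ (1 - ρ.re) + ‖1 - ρ‖ * ‖ρ‖ * (2 * (N : ℝ) ^ (-ρ.re))) / ‖1 - ρ‖ := by
      rw [le_div_iff₀ hpos, mul_comm]
      exact e4
    refine h1.trans (le_of_eq ?_)
    field_simp
  have e6 : 2 * (N : ℝ) ^ (1 - ρ.re) / ‖1 - ρ‖ ≤ 2 * (N : ℝ) ^ (1 - ρ.re) / ρ.im :=
    div_le_div_of_nonneg_left (by positivity) (by linarith) him1
  have e7 : ‖ρ‖ * (2 * (N : ℝ) ^ (-ρ.re)) ≤ 2 * ρ.im * (2 * (N : ℝ) ^ (-ρ.re)) :=
    mul_le_mul_of_nonneg_right hnρ (by positivity)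
  have e8 : 0 ≤ (N : ℝ) ^ (1 - ρ.re) / ρ.im := div_nonneg hA (by linarith)
  have e9 : 2 * (N : ℝ) ^ (1 - ρ.re) / ρ.im = 2 * ((N : ℝ) ^ (1 - ρ.re) / ρ.im) := by ring
  linarith

end Pool.Agent.LDH
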